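import Mathlib

/-! Linear equations on the line, and the derivative of a flow in the initial value. -/

namespace Pool.Agent.MP_3ee8cb_gt.D3JC

open Set MeasureTheory Filter Topology

variable {W : Type} [NormedAddCommGroup W] [NormedSpace ℝ W] [CompleteSpace W]

/-- The terms of the series that solves a linear equation. -/
noncomputable def it (A : ℝ → W →L[ℝ] W) (x : W) : ℕ → ℝ → W
  | 0 => fun _ => x
  | n + 1 => fun t => ∫ s in (0 : ℝ)..t, A s (it A x n s)

theorem it_cont {A : ℝ → W →L[ℝ] W} (hA : Continuous A) (x : W) (n : ℕ) :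
    Continuous (it A x n) := by
  induction n with
  | zero => exact continuous_const
  | succ n ih =>
    exact continuous_iff_continuousAt.2 fun t =>
      ((hA.clm_apply ih).integral_hasStrictDerivAt 0 t).hasDerivAt.continuousAt

theorem it_der {A : ℝ → W →L[ℝ] W} (hA : Continuous A) (x : W) (n : ℕ) (t : ℝ) :
    HasDerivAt (it A x (n + 1)) (A t (it A x n t)) t :=
  ((hA.clm_apply (it_cont hA x n)).integral_hasStrictDerivAt 0 t).hasDerivAt

theorem it_le {A : ℝ → W →L[ℝ] W} (x : W) {T M : ℝ} (hM0 : 0 ≤ M)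
    (hM : ∀ t ∈ Icc (-T) T, ‖A t‖ ≤ M) (n : ℕ) : ∀ t ∈ Icc (-T) T,
    ‖it A x n t‖ ≤ ‖x‖ * (1 / 2) ^ n * Real.cosh (2 * M * t) := by
  induction n with
  | zero =>
    intro t _
    simpa [it] using le_mul_of_one_le_right (norm_nonneg x) (Real.one_le_cosh (2 * M * t))
  | succ n ih =>
    intro t ht
    have h0 : (0 : ℝ) ∈ Icc (-T) T := ⟨by linarith [ht.1, ht.2], by linarith [ht.1, ht.2]⟩
    have hc : Continuous fun s => M * (‖x‖ * (1 / 2) ^ n * Real.cosh (2 * M * s)) := by fun_prop
    have h1 : ‖it A x (n + 1) t‖ ≤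
        |∫ s in (0 : ℝ)..t, M * (‖x‖ * (1 / 2) ^ n * Real.cosh (2 * M * s))| := by
      refine intervalIntegral.norm_integral_le_abs_of_norm_le ?_ (hc.intervalIntegrable _ _)
      refine (ae_restrict_mem measurableSet_uIoc).mono fun s hs => ?_
      have hs' : s ∈ Icc (-T) T := uIcc_subset_Icc h0 ht (uIoc_subset_uIcc hs)
      exact (A s).le_of_opNorm_le_of_le (hM s hs') (ih s hs')
    have h2 : ∀ s, HasDerivAt (fun s => ‖x‖ * (1 / 2) ^ (n + 1) * Real.sinh (2 * M * s))
        (M * (‖x‖ * (1 / 2) ^ n * Real.cosh (2 * M * s))) s := fun s => by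
      have := (((hasDerivAt_id s).const_mul (2 * M)).sinh).const_mul (‖x‖ * (1 / 2) ^ (n + 1))
      refine this.congr_deriv ?_
      simp only [id]
      ring
    rw [intervalIntegral.integral_eq_sub_of_hasDerivAt (fun s _ => h2 s)
      (hc.intervalIntegrable _ _)] at h1
    refine h1.trans ?_
    have h3 : |Real.sinh (2 * M * t)| ≤ Real.cosh (2 * M * t) := by
      refine abs_le_of_sq_le_sq ?_ (Real.cosh_pos _).le
      rw [Real.cosh_sq]
      linarith
    simp only [mul_zero, Real.sinh_zero, sub_zero, abs_mul, abs_norm]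
    rw [abs_of_nonneg (by positivity : (0 : ℝ) ≤ (1 / 2) ^ (n + 1))]
    exact mul_le_mul_of_nonneg_left h3 (by positivity)

/-- A linear equation with continuous coefficients has a solution on the line. -/
theorem lin_line {A : ℝ → W →L[ℝ] W} (hA : Continuous A) (x : W) :
    ∃ Y : ℝ → W, Y 0 = x ∧ ∀ t, HasDerivAt Y (A t (Y t)) t := by
  refine ⟨fun t => x + ∑' n, it A x (n + 1) t, by simp [it], fun t => ?_⟩
  obtain ⟨T, hT⟩ : ∃ T, T = |t| + 1 := ⟨_, rfl⟩
  have ht : t ∈ Ioo (-T) T := ⟨by linarith [neg_abs_le t], by linarith [le_abs_self t]⟩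
  obtain ⟨M, hM⟩ := (isCompact_Icc (a := -T) (b := T)).exists_bound_of_continuousOn
    hA.continuousOn
  obtain ⟨B, hB⟩ := (isCompact_Icc (a := -T) (b := T)).exists_bound_of_continuousOn
    (f := fun s => Real.cosh (2 * M * s)) (by fun_prop)
  have hM0 : 0 ≤ M := (norm_nonneg _).trans (hM t (Ioo_subset_Icc_self ht))
  have hb : ∀ n, ∀ s ∈ Icc (-T) T, ‖it A x n s‖ ≤ ‖x‖ * B * (1 / 2) ^ n := fun n s hs => by
    refine (it_le x hM0 hM n s hs).trans ?_
    rw [mul_right_comm]
    exact mul_le_mul_of_nonneg_right (mul_le_mul_of_nonneg_left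
      ((le_abs_self _).trans (hB s hs)) (norm_nonneg _)) (by positivity)
  have hs : Summable fun n : ℕ => ‖x‖ * B * (1 / 2 : ℝ) ^ n :=
    summable_geometric_two.mul_left _
  have h0 : (0 : ℝ) ∈ Ioo (-T) T := ⟨by linarith [abs_nonneg t], by linarith [abs_nonneg t]⟩
  have hd := hasDerivAt_tsum_of_isPreconnected (hs.mul_left M) isOpen_Ioo isPreconnected_Ioo
    (fun n s _ => it_der hA x n s) (fun n s hs => (A s).le_of_opNorm_le_of_le
      (hM s (Ioo_subset_Icc_self hs)) (hb n s (Ioo_subset_Icc_self hs))) h0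
    (by simpa [it] using summable_zero) ht
  have h1 : Summable fun n => it A x n t :=
    Summable.of_norm_bounded hs fun n => hb n t (Ioo_subset_Icc_self ht)
  refine (hd.const_add x).congr_deriv ?_
  rw [← (A t).map_tsum h1, h1.tsum_eq_zero_add]
  rfl

variable {E : Type} [NormedAddCommGroup E] [NormedSpace ℝ E] [FiniteDimensional ℝ E]

theorem fd_snd {G : ℝ × E → W} (hG : ContDiff ℝ 1 G) (t : ℝ) (z : E) :
    HasFDerivAt (fun z => G (t, z)) ((fderiv ℝ G (t, z)).comp (.inr ℝ ℝ E)) z :=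
  ((hG.differentiable one_ne_zero) _).hasFDerivAt.comp z (hasFDerivAt_prodMk_right t z)

/-- The derivatives in time and in the parameter commute. -/
theorem var {F G : ℝ × E → W} (hF : ContDiff ℝ 1 F) (hG : ContDiff ℝ 1 G)
    (h : ∀ z t, HasDerivAt (fun s => F (s, z)) (G (t, z)) t) (z : E) (t : ℝ) :
    HasDerivAt (fun s => fderiv ℝ (fun z => F (s, z)) z) (fderiv ℝ (fun z => G (t, z)) z) t := by
  have := FiniteDimensional.proper_real E
  obtain ⟨D, hD⟩ : ∃ D : ℝ × E → E →L[ℝ] W,
    D = fun q => (fderiv ℝ G q).comp (.inr ℝ ℝ E) := ⟨_, rfl⟩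
  have cD : Continuous D := hD ▸ (hG.continuous_fderiv one_ne_zero).clm_comp continuous_const
  have dG : ∀ s x, HasFDerivAt (fun z => G (s, z)) (D (s, x)) x := fun s x => hD ▸ fd_snd hG s x
  have cG : ∀ x, Continuous fun s => G (s, x) := fun x => hG.continuous.comp (by fun_prop)
  have cz : Continuous fun s => D (s, z) := cD.comp (by fun_prop)
  have e1 : ∀ s x, F (s, x) = F (0, x) + ∫ r in (0 : ℝ)..s, G (r, x) := fun s x => by
    rw [intervalIntegral.integral_eq_sub_of_hasDerivAt (fun r _ => h x r)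
      ((cG x).intervalIntegrable _ _), add_sub_cancel]
  have e2 : ∀ s, fderiv ℝ (fun z => F (s, z)) z =
      fderiv ℝ (fun z => F (0, z)) z + ∫ r in (0 : ℝ)..s, D (r, z) := fun s => by
    obtain ⟨B, hB⟩ := ((isCompact_uIcc (a := (0 : ℝ)) (b := s)).prod
      (isCompact_closedBall z 1)).exists_bound_of_continuousOn cD.continuousOn
    have h1 : HasFDerivAt (fun x => ∫ r in (0 : ℝ)..s, G (r, x)) (∫ r in (0 : ℝ)..s, D (r, z)) z :=
      intervalIntegral.hasFDerivAt_integral_of_dominated_of_fderiv_le (μ := volume)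
        (F := fun x r => G (r, x)) (F' := fun x r => D (r, x)) (bound := fun _ => B)
        (Metric.closedBall_mem_nhds z one_pos)
        (Eventually.of_forall fun x => (cG x).aestronglyMeasurable)
        ((cG z).intervalIntegrable _ _) cz.aestronglyMeasurable
        (Eventually.of_forall fun r hr x hx => hB (r, x) ⟨uIoc_subset_uIcc hr, hx⟩)
        intervalIntegrable_const (Eventually.of_forall fun r _ x _ => dG r x)
    rw [funext (e1 s)]
    exact ((fd_snd hF 0 z).differentiableAt.hasFDerivAt.add h1).fderiv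
  rw [funext e2, (dG t z).fderiv]
  exact (cz.integral_hasStrictDerivAt 0 t).hasDerivAt.const_add _

end Pool.Agent.MP_3ee8cb_gt.D3JC
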