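import Pool.Agent.MP_3ee8cb_gt.D3JC.Flow

/-! The Jacobi equations of a moving frame. -/

namespace Pool.Agent.MP_3ee8cb_gt.D3JC

open D3 Set
open scoped RealInnerProductSpace

variable {m : MF} (h : m.OK)
include h

omit h in
theorem hor_ap (z ξ : V × V) : m.hor z ξ = m.S z.1 ξ.1 := rfl

omit h in
theorem ver_ap (z ξ : V × V) : m.ver z ξ = ξ.2 + m.om z.1 ξ.1 z.2 := rfl

omit h in
theorem app_der {F : Type} [NormedAddCommGroup F] [NormedSpace ℝ F] {o : V → V →L[ℝ] F}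
    {D : V →L[ℝ] V →L[ℝ] F} {y u : ℝ → V} {y' u' : V} {t : ℝ} (ho : HasFDerivAt o D (y t))
    (hy : HasDerivAt y y' t) (hu : HasDerivAt u u' t) :
    HasDerivAt (fun s => o (y s) (u s)) (D y' (u t) + o (y t) u') t :=
  (ho.comp_hasDerivAt t hy).clm_apply hu

omit h in
theorem app_fder {P F : Type} [NormedAddCommGroup P] [NormedSpace ℝ P] [NormedAddCommGroup F]
    [NormedSpace ℝ F] {o : V → V →L[ℝ] F} {D : V →L[ℝ] V →L[ℝ] F} {y u : P → V}
    {y' u' : P →L[ℝ] V} {p : P} (ho : HasFDerivAt o D (y p)) (hy : HasFDerivAt y y' p)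
    (hu : HasFDerivAt u u' p) : ∃ L : P →L[ℝ] F, HasFDerivAt (fun s => o (y s) (u s)) L p ∧
      ∀ ξ, L ξ = D (y' ξ) (u p) + o (y p) (u' ξ) :=
  ⟨_, (ho.comp p hy).clm_apply hu, fun ξ => by simp [add_comm]⟩

theorem dvf (z ξ : V × V) : fderiv ℝ m.vf z ξ =
    (fderiv ℝ m.R z.1 ξ.1 z.2 + m.R z.1 ξ.2,
      -(fderiv ℝ m.om z.1 ξ.1 (m.R z.1 z.2) z.2 +
        m.om z.1 (fderiv ℝ m.R z.1 ξ.1 z.2 + m.R z.1 ξ.2) z.2 + m.om z.1 (m.R z.1 z.2) ξ.2)) := by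
  have f : HasFDerivAt (fun z : V × V => z.1) (ContinuousLinearMap.fst ℝ V V) z := hasFDerivAt_fst
  have s : HasFDerivAt (fun z : V × V => z.2) (ContinuousLinearMap.snd ℝ V V) z := hasFDerivAt_snd
  obtain ⟨A, a, hA⟩ := app_fder (dR h z.1) f s
  obtain ⟨B, b, hB⟩ := app_fder (F := V →L[ℝ] V) (dom h z.1) f a
  have c : HasFDerivAt m.vf _ z := a.prodMk (b.clm_apply s).fun_neg
  rw [c.fderiv]
  simp [hA, hB]
  abel

/-- The equation of variations. -/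
theorem vari (z ξ : V × V) (t : ℝ) : HasDerivAt (fun s => fderiv ℝ (m.Z s) z ξ)
    (fderiv ℝ m.vf (m.Z t z) (fderiv ℝ (m.Z t) z ξ)) t := by
  have h1 := var (F := fun q : ℝ × V × V => m.Z q.1 q.2)
    (G := fun q : ℝ × V × V => m.vf (m.Z q.1 q.2)) h.cZ ((cvf h).comp h.cZ) h.ode z t
  have h2 := (((cvf h).differentiable one_ne_zero (m.Z t z)).hasFDerivAt.comp z (dZ h t z)).fderiv
  have h3 := h1.clm_apply (hasDerivAt_const t ξ)
  refine h3.congr_deriv ?_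
  rw [map_zero, add_zero]
  exact congrArg (fun L : V × V →L[ℝ] V × V => L ξ) h2

theorem var1 (z ξ : V × V) (t : ℝ) : HasDerivAt (fun s => (fderiv ℝ (m.Z s) z ξ).1)
    (fderiv ℝ m.vf (m.Z t z) (fderiv ℝ (m.Z t) z ξ)).1 t :=
  (ContinuousLinearMap.fst ℝ V V).hasFDerivAt.comp_hasDerivAt t (vari h z ξ t)

theorem var2 (z ξ : V × V) (t : ℝ) : HasDerivAt (fun s => (fderiv ℝ (m.Z s) z ξ).2)
    (fderiv ℝ m.vf (m.Z t z) (fderiv ℝ (m.Z t) z ξ)).2 t :=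
  (ContinuousLinearMap.snd ℝ V V).hasFDerivAt.comp_hasDerivAt t (vari h z ξ t)

theorem dSR (y u b : V) : m.S y (fderiv ℝ m.R y u b) = -fderiv ℝ m.S y u (m.R y b) := by
  have h1 := (dS h y).clm_apply ((dR h y).clm_apply (hasFDerivAt_const b y))
  rw [funext fun y => h.SR y b] at h1
  have := congrArg (fun L : V →L[ℝ] V => L u) (h1.unique (hasFDerivAt_const b y))
  simp at this
  rw [eq_neg_iff_add_eq_zero, ← this]

theorem d1 (z ξ : V × V) (t : ℝ) :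
    HasDerivAt (m.J z ξ) (m.J' z ξ t - m.w z t (m.J z ξ t)) t := by
  have e : m.J z ξ = fun s => m.S (m.Z s z).1 (fderiv ℝ (m.Z s) z ξ).1 := rfl
  rw [MF.J', MF.w, ver_ap, e]
  refine (app_der (dS h _) (ode1 h z t) (var1 h z ξ t)).congr_deriv ?_
  have := h.tors (m.Z t z).1 (m.R (m.Z t z).1 (m.Z t z).2) (fderiv ℝ (m.Z t) z ξ).1
  simp only [dvf h, map_add, dSR h, h.SR] at this ⊢
  linear_combination (norm := abel1) this

theorem d2 (z ξ : V × V) (t : ℝ) : HasDerivAt (m.J' z ξ)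
    (-m.K (m.Z t z).1 (m.J z ξ t) (m.Z t z).2 (m.Z t z).2 - m.w z t (m.J' z ξ t)) t := by
  have c := app_der (F := V →L[ℝ] V) (dom h _) (ode1 h z t) (var1 h z ξ t)
  have e : m.J' z ξ = fun s => (fderiv ℝ (m.Z s) z ξ).2 +
    m.om (m.Z s z).1 (fderiv ℝ (m.Z s) z ξ).1 (m.Z s z).2 := rfl
  rw [MF.J, hor_ap, MF.K, h.RS, MF.Om, e]
  refine ((var2 h z ξ t).fun_add (c.clm_apply (ode2 h z t))).congr_deriv ?_
  simp only [dvf h, MF.w, map_add, map_neg, ContinuousLinearMap.add_apply]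
  abel

theorem symp (z ξ η : V × V) (t : ℝ) : ⟪m.J z ξ t, m.J' z η t⟫ - ⟪m.J' z ξ t, m.J z η t⟫ =
    ⟪m.hor z ξ, m.ver z η⟫ - ⟪m.ver z ξ, m.hor z η⟫ := by
  have d : ∀ t, HasDerivAt (fun t => ⟪m.J z ξ t, m.J' z η t⟫ - ⟪m.J' z ξ t, m.J z η t⟫) 0 t :=
    fun t => by
      refine (((d1 h z ξ t).inner ℝ (d2 h z η t)).fun_sub
        ((d2 h z ξ t).inner ℝ (d1 h z η t))).congr_deriv ?_
      have e : ⟪m.J z ξ t, m.K (m.Z t z).1 (m.J z η t) (m.Z t z).2 (m.Z t z).2⟫ =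
          ⟪m.K (m.Z t z).1 (m.J z ξ t) (m.Z t z).2 (m.Z t z).2, m.J z η t⟫ := by
        rw [real_inner_comm, pK h, aK, inner_neg_left, sK h, neg_neg, real_inner_comm, sK h,
          real_inner_comm]
      simp only [inner_sub_left, inner_sub_right, inner_neg_left, inner_neg_right, w_skew h, e]
      ring
  have := is_const_of_deriv_eq_zero (fun t => (d t).differentiableAt) (fun t => (d t).deriv) t 0
  have e0 : m.Z 0 = id := funext h.zero
  simpa [MF.J, MF.J', e0] using this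

end Pool.Agent.MP_3ee8cb_gt.D3JC
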